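import Pool.Agent.H86.PE.Tail

/-!
# The weighted pendulum equation: nearly constant weights and solutions with every itinerary

For every `ε > 0` and every finite sequence of real numbers there is an even weight with at most three
values, all in `[1, 1 + ε]`, and an odd finite-energy solution which satisfies the constraints and
takes the given values in the given order at increasing positive times.
-/

namespace Pool.Agent.Results.MP_4601b9_an.EveryItinerary

open MeasureTheory Set Filter Real
open scoped Topology ContDiff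

/-- `φ` belongs to `Ḣ¹(ℝ)` with derivative `dφ`: `dφ ∈ L²(ℝ)` and `φ` is a primitive of `dφ`. -/
def IsHdot1 (φ dφ : ℝ → ℝ) : Prop :=
  MemLp dφ 2 volume ∧ ∀ x y : ℝ, IntervalIntegrable dφ volume x y ∧
    φ y - φ x = ∫ s in x..y, dφ s

/-- `(a φ')' + a sin φ cos φ = 0` in the sense of distributions on all of `ℝ` (which contains the
equation (E) of the problem, where the test functions vanish near `0`). -/
def SolvesPendulum (a φ dφ : ℝ → ℝ) : Prop :=
  ∀ η : ℝ → ℝ, ContDiff ℝ ∞ η → HasCompactSupport η →
    Integrable (fun x => a x * dφ x * deriv η x) ∧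
    Integrable (fun x => a x * (sin (φ x) * cos (φ x)) * η x) ∧
    ∫ x, a x * dφ x * deriv η x = ∫ x, a x * (sin (φ x) * cos (φ x)) * η x

/-- The constraints: `φ(0) = 0`, `φ(x) → ± π/2` as `x → ± ∞`. -/
def Constraints (φ : ℝ → ℝ) : Prop :=
  φ 0 = 0 ∧ Tendsto φ atTop (𝓝 (π / 2)) ∧ Tendsto φ atBot (𝓝 (-(π / 2)))

open Pool.Agent.H86.PE

theorem vis_fin {φ : ℝ → ℝ} : ∀ (r : ℕ) (c : Fin r → ℝ) (t : ℝ), Vis φ t (List.ofFn c) →
    ∃ x : Fin r → ℝ, StrictMono x ∧ ∀ i, t < x i ∧ φ (x i) = c i
  | 0, _, _, _ => ⟨fun i => i.elim0, fun i => i.elim0, fun i => i.elim0⟩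
  | r + 1, c, t, h => by
    rw [List.ofFn_succ] at h
    obtain ⟨x₀, hx₀, hc, hL⟩ := h
    obtain ⟨x, hx, hxc⟩ := vis_fin r (fun i => c i.succ) x₀ hL
    refine ⟨Fin.cons x₀ x, ?_, ?_⟩
    · intro i j hij
      induction j using Fin.cases with
      | zero => exact absurd hij (by simp)
      | succ j =>
        induction i using Fin.cases with
        | zero => simpa using (hxc j).1
        | succ i => simpa using hx (Fin.succ_lt_succ_iff.mp hij)
    · intro i
      induction i using Fin.cases with
      | zero => exact ⟨by simpa using hx₀, by simpa using hc⟩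
      | succ i => exact ⟨by simpa using hx₀.trans (hxc i).1, by simpa using (hxc i).2⟩

theorem integrable_comp_abs {f : ℝ → ℝ} (hf : IntegrableOn f (Ioi 0)) :
    Integrable (fun x => f |x|) := by
  have hf' : IntegrableOn (fun x => f |x|) (Ioi 0) := by
    refine hf.congr_fun (fun x hx => ?_) measurableSet_Ioi
    simp only [abs_of_pos (show (0 : ℝ) < x from hx)]
  have int_Iic : IntegrableOn (fun x ↦ f |x|) (Iic 0) := by
    rw [← Measure.map_neg_eq_self (volume : Measure ℝ)]
    let m : MeasurableEmbedding fun x : ℝ => -x := (Homeomorph.neg ℝ).measurableEmbedding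
    rw [m.integrableOn_map_iff]
    simp_rw [Function.comp_def, abs_neg, neg_preimage, neg_Iic, neg_zero]
    exact Iff.mpr integrableOn_Ici_iff_integrableOn_Ioi hf'
  have := int_Iic.union hf'
  rwa [Iic_union_Ioi, integrableOn_univ] at this

/-- **Every itinerary, for nearly constant weights.** -/
theorem result (ε : ℝ) (hε : 0 < ε) (r : ℕ) (c : Fin r → ℝ) :
    ∃ a φ dφ : ℝ → ℝ, Measurable a ∧ (∀ x, 1 ≤ a x ∧ a x ≤ 1 + ε) ∧ (range a).encard ≤ 3 ∧
      (∀ x, a (-x) = a x) ∧ (∀ x, φ (-x) = -φ x) ∧
      IsHdot1 φ dφ ∧ SolvesPendulum a φ dφ ∧ Constraints φ ∧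
      ∃ x : Fin r → ℝ, StrictMono x ∧ ∀ i, 0 < x i ∧ φ (x i) = c i := by
  -- the parameters
  obtain ⟨s, κ, hs, hκ, hκ1, hsκ⟩ : ∃ s κ : ℝ, 1 < s ∧ 0 < κ ∧ κ < 1 ∧ s / κ = 1 + ε := by
    have h1 : (1 : ℝ) < √(1 + ε) := by
      rw [lt_sqrt (by norm_num)]; linarith
    refine ⟨√(1 + ε), 1 / √(1 + ε), h1, by positivity, ?_, ?_⟩
    · rw [div_lt_one (by positivity)]; exact h1
    · rw [div_div_eq_mul_div, div_one]; exact mul_self_sqrt (by linarith)
  have hs1 : s ≤ 1 + ε := by
    rw [← hsκ, le_div_iff₀ hκ]; nlinarith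
  obtain ⟨f, p, b, hf, hp, hb, hv, ⟨S, hS, hd⟩, h1, h2, h3, h4, h5⟩ :=
    exists_tail hs hκ hκ1 (List.ofFn c)
  have hb1 : ∀ x, 1 ≤ b x ∧ b x ≤ 1 + ε := by
    intro x
    rcases hv x with h | h | h <;> rw [h]
    · exact ⟨le_rfl, by linarith⟩
    · exact ⟨hs.le, hs1⟩
    · rw [hsκ]; exact ⟨by linarith, le_rfl⟩
  have hf0 : f 0 = 0 := by simpa using h1
  set φ : ℝ → ℝ := fun x => if 0 ≤ x then f x else -f (-x) with hφ
  set a : ℝ → ℝ := fun x => b |x| with ha
  set dφ : ℝ → ℝ := fun x => p |x| / b |x| with hdφ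
  have hφpos : ∀ x, 0 ≤ x → φ x = f x := fun x hx => by simp [hφ, hx]
  have hφneg : ∀ x, x < 0 → φ x = -f (-x) := fun x hx => by simp [hφ, not_le.mpr hx]
  have hφc : Continuous φ := by
    refine Continuous.if_le hf (by fun_prop) continuous_const continuous_id (fun x hx => ?_)
    obtain rfl : (0 : ℝ) = x := hx
    simp [hf0]
  have hodd : ∀ x, φ (-x) = -φ x := by
    intro x
    rcases lt_trichotomy x 0 with h | h | h
    · rw [hφpos (-x) (by linarith), hφneg x h, neg_neg]
    · subst h; simp [hφ, hf0]
    · rw [hφneg (-x) (by linarith), hφpos x h.le, neg_neg]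
  have hac : Measurable a := hb.comp continuous_abs.measurable
  have hPc : Continuous (fun x => p |x|) := hp.comp continuous_abs
  have hdm : Measurable dφ := hPc.measurable.div hac
  have hapos : ∀ x, 0 < a x := fun x => by have := (hb1 |x|).1; simp only [ha]; linarith
  -- the exceptional set
  set E : Set ℝ := {0} ∪ S ∪ (fun x : ℝ => -x) ⁻¹' S with hE
  have hEc : E.Countable :=
    ((countable_singleton 0).union hS).union (hS.preimage neg_injective)
  have hder : ∀ x ∉ E, HasDerivAt φ (dφ x) x ∧
      HasDerivAt (fun x => p |x|) (-(a x * (sin (φ x) * cos (φ x)))) x := by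
    intro x hx
    simp only [hE, mem_union, mem_singleton_iff, mem_preimage, not_or] at hx
    obtain ⟨⟨hx0, hxS⟩, hxS'⟩ := hx
    rcases lt_or_gt_of_ne hx0 with h | h
    · obtain ⟨d1, d2⟩ := hd (-x) (by linarith) hxS'
      have e1 : φ =ᶠ[𝓝 x] fun y => -f (-y) := by
        filter_upwards [Iio_mem_nhds h] with y hy
        exact hφneg y hy
      have e2 : (fun y => p |y|) =ᶠ[𝓝 x] fun y => p (-y) := by
        filter_upwards [Iio_mem_nhds h] with y hy
        rw [abs_of_neg (show y < 0 from hy)]
      have hneg : HasDerivAt (fun y : ℝ => -y) (-1) x := hasDerivAt_neg x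
      constructor
      · have h1 := ((d1.comp x hneg).neg).congr_of_eventuallyEq e1
        refine h1.congr_deriv ?_
        simp only [hdφ, abs_of_neg h]
        ring
      · have h2 := (d2.comp x hneg).congr_of_eventuallyEq e2
        refine h2.congr_deriv ?_
        simp only [ha, abs_of_neg h, hφneg x h, sin_neg, cos_neg]
        ring
    · obtain ⟨d1, d2⟩ := hd x h hxS
      have e1 : φ =ᶠ[𝓝 x] f := by
        filter_upwards [Ioi_mem_nhds h] with y hy
        exact hφpos y (le_of_lt hy)
      have e2 : (fun y => p |y|) =ᶠ[𝓝 x] p := by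
        filter_upwards [Ioi_mem_nhds h] with y hy
        rw [abs_of_pos (show 0 < y from hy)]
      constructor
      · refine (d1.congr_of_eventuallyEq e1).congr_deriv ?_
        simp only [hdφ, abs_of_pos h]
      · refine (d2.congr_of_eventuallyEq e2).congr_deriv ?_
        simp only [ha, abs_of_pos h, hφpos x h.le]
  -- finite energy
  have hL2 : MemLp dφ 2 volume := by
    rw [memLp_two_iff_integrable_sq hdm.aestronglyMeasurable]
    have hi := integrable_comp_abs h4
    refine hi.mono' (hdm.pow_const 2).aestronglyMeasurable (Eventually.of_forall fun x => ?_)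
    rw [norm_of_nonneg (sq_nonneg _)]
    simp only [hdφ]
    rw [div_pow]
    refine div_le_self (sq_nonneg _) ?_
    have := (hb1 |x|).1
    nlinarith
  have hloc : LocallyIntegrable dφ volume := hL2.locallyIntegrable (by norm_num)
  have hii : ∀ x y : ℝ, IntervalIntegrable dφ volume x y := fun x y => by
    rw [intervalIntegrable_iff]
    exact (hloc.integrableOn_isCompact isCompact_uIcc).mono_set uIoc_subset_uIcc
  have hH : IsHdot1 φ dφ := by
    refine ⟨hL2, fun x y => ⟨hii x y, ?_⟩⟩
    rw [integral_eq_of_hasDerivAt_off_countable φ dφ hEc hφc.continuousOn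
      (fun z hz => (hder z hz.2).1) (hii x y)]
  -- the equation
  have hsol : SolvesPendulum a φ dφ := by
    intro η hη hηc
    have hηcont : Continuous η := hη.continuous
    have hη'cont : Continuous (deriv η) := hη.continuous_deriv (by simp)
    have heq : ∀ x, a x * dφ x * deriv η x = p |x| * deriv η x := by
      intro x
      have h0 : b |x| ≠ 0 := (hapos x).ne'
      simp only [ha, hdφ]
      field_simp
    have hI1 : Integrable (fun x => p |x| * deriv η x) :=
      (hPc.mul hη'cont).integrable_of_hasCompactSupport (hηc.deriv.mul_left)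
    have hI2 : Integrable (fun x => a x * (sin (φ x) * cos (φ x)) * η x) := by
      have hηi : Integrable η := hηcont.integrable_of_hasCompactSupport hηc
      refine hηi.bdd_mul (c := 1 + ε) ?_ (Eventually.of_forall fun x => ?_)
      · have hsc : Continuous (fun x => sin (φ x) * cos (φ x)) := by fun_prop
        exact (hac.mul hsc.measurable).aestronglyMeasurable
      · rw [norm_mul, norm_mul, norm_of_nonneg (hapos x).le]
        have h1 : ‖sin (φ x)‖ ≤ 1 := abs_sin_le_one _
        have h2 : ‖cos (φ x)‖ ≤ 1 := abs_cos_le_one _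
        have h3 := (hb1 |x|).2
        have h4 : ‖sin (φ x)‖ * ‖cos (φ x)‖ ≤ 1 := mul_le_one₀ h1 (norm_nonneg _) h2
        calc a x * (‖sin (φ x)‖ * ‖cos (φ x)‖) ≤ a x * 1 :=
              mul_le_mul_of_nonneg_left h4 (hapos x).le
          _ ≤ 1 + ε := by simpa [ha] using h3
    refine ⟨?_, hI2, ?_⟩
    · simpa only [heq] using hI1
    simp only [heq]
    rw [← sub_eq_zero, ← integral_sub hI1 hI2]
    obtain ⟨R, hR⟩ := hηc.isCompact.isBounded.subset_closedBall (0 : ℝ)
    have hsupp : ∀ x, |R| < |x| → x ∉ tsupport η := by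
      intro x hx hxs
      have := hR hxs
      rw [mem_closedBall_zero_iff, norm_eq_abs] at this
      exact absurd (this.trans (le_abs_self R)) (not_le.mpr hx)
    set M := |R| + 1 with hM
    have hM0 : 0 < M := by positivity
    have hzero : ∀ x, |R| < |x| → η x = 0 := fun x hx => image_eq_zero_of_notMem_tsupport (hsupp x hx)
    have hzero' : ∀ x, |R| < |x| → deriv η x = 0 := fun x hx => by
      have : x ∉ tsupport (deriv η) := fun h => hsupp x hx (tsupport_deriv_subset h)
      exact image_eq_zero_of_notMem_tsupport this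
    have hsub : Function.support (fun x => p |x| * deriv η x - a x * (sin (φ x) * cos (φ x)) * η x) ⊆
        Ioc (-M) M := by
      intro x hx
      by_contra hcon
      have hx' : |R| < |x| := by
        by_contra hle
        push Not at hle
        have := abs_le.mp hle
        exact hcon ⟨by linarith [this.1], by linarith [this.2]⟩
      exact hx (by simp [hzero x hx', hzero' x hx'])
    rw [← intervalIntegral.integral_eq_integral_of_support_subset hsub]
    have hFTC := integral_eq_of_hasDerivAt_off_countable (fun x => p |x| * η x)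
      (fun x => p |x| * deriv η x - a x * (sin (φ x) * cos (φ x)) * η x) (a := -M) (b := M) hEc
      (hPc.mul hηcont).continuousOn
      (fun z hz => by
        have h1 := (hder z hz.2).2
        have h2 : HasDerivAt η (deriv η z) z :=
          (hη.differentiable (by simp) z).hasDerivAt
        refine (h1.mul h2).congr_deriv ?_
        ring)
      (hI1.sub hI2).intervalIntegrable
    rw [hFTC, hzero M (by rw [abs_of_pos hM0, hM]; linarith),
      hzero (-M) (by rw [abs_neg, abs_of_pos hM0, hM]; linarith)]
    simp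
  -- the constraints
  have hcon : Constraints φ := by
    have htop : Tendsto φ atTop (𝓝 (π / 2)) := by
      refine h3.congr' ?_
      filter_upwards [eventually_ge_atTop (0 : ℝ)] with x hx
      exact (hφpos x hx).symm
    refine ⟨by simp [hφ, hf0], htop, ?_⟩
    have h := (htop.comp tendsto_neg_atBot_atTop).neg
    refine h.congr fun x => ?_
    simp only [Function.comp, hodd, neg_neg]
  -- the values
  obtain ⟨x, hx, hxc⟩ := vis_fin r c 0 h5
  refine ⟨a, φ, dφ, hac, fun x => hb1 _, ?_, fun x => by simp [ha], hodd, hH, hsol, hcon, x, hx,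
    fun i => ⟨(hxc i).1, by rw [hφpos _ (hxc i).1.le, (hxc i).2]⟩⟩
  have hrange : range a ⊆ ({1, s, s / κ} : Set ℝ) := by
    rintro _ ⟨x, rfl⟩
    simpa [ha] using hv |x|
  have h3 : (range a).ncard ≤ 3 := by
    refine (ncard_le_ncard hrange (toFinite _)).trans ?_
    refine (ncard_insert_le _ _).trans ?_
    have := ncard_insert_le s ({s / κ} : Set ℝ)
    rw [ncard_singleton] at this
    omega
  rw [← ((toFinite ({1, s, s / κ} : Set ℝ)).subset hrange).cast_ncard_eq]
  exact_mod_cast h3

end Pool.Agent.Results.MP_4601b9_an.EveryItinerary
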